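import Pool.Agent.Work.MP_db9399_iv_helper38.RXV4

/-!
# MP_db9399, all scales, block RGX4: the part V3 (helper98)
-/

set_option autoImplicit false

namespace Pool.Agent.Work.MP_db9399_rg_helper98

open Finset Classical
open Pool.Agent.Work.MP_db9399_all (nb)
open Pool.Agent.Work.MP_db9399_lt (us)
open Pool.Agent.Work.MP_db9399_da (Pcs Ty pV sV Ts sdn ptn sgp sg need thin sid)
open Pool.Agent.Work.MP_db9399_xf
open Pool.Agent.Work.MP_db9399_x4
open Pool.Agent.Work.MP_db9399_iv_helper38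

universe u

section
variable {V : Type u} [Fintype V] {N J : ℕ}

/-- number of the vertices of the side `β` of the piece `n` with the colour `b` -/
noncomputable def un (G : SimpleGraph V) (X : XD V N J) (t : V → V → ℕ) (n : Fin N) (β : Bool)
    (b : ℕ) : ℕ := ((sV X.P n β).filter (fun v => b ∈ Ft (xt G X) t v)).card

theorem un_eq (G : SimpleGraph V) (X : XD V N J) (t : V → V → ℕ) (n : Fin N) (β : Bool)
    (b : ℕ) [DecidableEq (Ts X.P n)] :
    (sid (sdn X.P n) β ∩ us (Fp (xt G X) X t n) b).card = un G X t n β b := by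
  rw [← card_image_of_injective _ Subtype.val_injective]
  unfold un
  congr 1
  ext v
  simp only [mem_image, mem_inter, sid, us, mem_filter, mem_univ, true_and, Fp, sdn,
    Pool.Agent.Work.MP_db9399_iv_helper38.mem_sV]
  constructor
  · rintro ⟨x, ⟨h1, h2⟩, rfl⟩
    exact ⟨⟨x.2.1, x.2.2, h1⟩, h2⟩
  · rintro ⟨⟨h1, h2, h3⟩, h4⟩
    exact ⟨⟨v, h1, h2⟩, ⟨h3, h4⟩, rfl⟩

theorem un_bal (G : SimpleGraph V) (X : XD V N J) (t t1 : V → V → ℕ) (n : Fin N) (β : Bool)
    (b : ℕ) : un G X t1 n β b + (LVs G X t t1 n β b).card =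
      un G X t n β b + (LVs G X t1 t n β b).card := by
  have h : ∀ s s1 : V → V → ℕ, un G X s n β b =
      ((sV X.P n β).filter (fun v => b ∈ Ft (xt G X) s v ∧ b ∈ Ft (xt G X) s1 v)).card +
        (LVs G X s s1 n β b).card := by
    intro s s1
    unfold un LVs
    rw [← Finset.card_filter_add_card_filter_not (s := (sV X.P n β).filter
      (fun v => b ∈ Ft (xt G X) s v)) (fun v => b ∈ Ft (xt G X) s1 v), filter_filter,
      filter_filter]
  have h1 := h t t1
  have h2 := h t1 t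
  have h3 : ((sV X.P n β).filter (fun v => b ∈ Ft (xt G X) t v ∧ b ∈ Ft (xt G X) t1 v)) =
      ((sV X.P n β).filter (fun v => b ∈ Ft (xt G X) t1 v ∧ b ∈ Ft (xt G X) t v)) :=
    filter_congr fun v _ => and_comm
  rw [h3] at h1
  omega

theorem need_eq (G : SimpleGraph V) (X : XD V N J) (t : V → V → ℕ) (n : Fin N) (β : Bool)
    (b : ℕ) : need (Fp (xt G X) X t n) (sdn X.P n) β b =
      un G X t n (!β) b - un G X t n β b := by
  unfold need
  rw [un_eq, un_eq]

theorem sg_eq (G : SimpleGraph V) (X : XD V N J) (t : V → V → ℕ) (n : Fin N)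
    (b : ℕ) : sg (Fp (xt G X) X t n) (sdn X.P n) b =
      (un G X t n false b : ℤ) - un G X t n true b := by
  unfold sg
  rw [un_eq, un_eq]

theorem ub_eq (G : SimpleGraph V) (X : XD V N J) (t : V → V → ℕ)
    (δ : Fin N → Bool → ℕ → ℕ) (n : Fin N) (β : Bool) (b : ℕ) :
    ub G X t δ n β b = un G X t n β b + δ n β b := rfl

theorem KX4_ge {C πk : ℝ} (h1 : 1 / 4 ≤ πk) (h2 : πk < 1 / 3) (hC : 1 ≤ C) :
    10 ^ 4 * (C + 5) + 60 ≤ (KX4 C πk : ℝ) := by
  unfold KX4
  push_cast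
  have h3 : 0 < 1 - 3 * πk := by linarith
  have h4 : 10 ^ 4 * (C + 5) ≤ 10 ^ 4 * (C + 5) / (1 - 3 * πk) := by
    rw [le_div_iff₀ h3]
    nlinarith
  have h5 := Nat.le_ceil (10 ^ 4 * (C + 5) / (1 - 3 * πk))
  linarith

end

theorem stmt_V34 : Stmt_V34.{u} := by
  intro πk C g z τ e M J S c' u hC
  obtain ⟨hk1, hk2, hC1, _, _, _, _, _, _, _, hS⟩ := hC
  refine ⟨1, ?_⟩
  intro V _ N G d X A t c m m2 pr f θk θ' η hd hX hP hB v w b hT hb hv hw h1 h2
  have hD : PcD C g z θk θ' η ((d : ℝ) ^ (-c')) M S G d X := hX.pc.toPcD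
  have hK := KX4_ge hk1 hk2 hC1
  have hζ : ∀ s, (S s).ζ ≤ 1 / 1000 := fun s => le_trans (hS s).ζ1 (by norm_num)
  -- T-edges keep their colours
  have e1 : tn G d X t m m2 pr f v w = t v w := by
    unfold tn
    apply rcl_no
    · by_contra hne
      obtain ⟨b', hb'⟩ := Option.ne_none_iff_exists'.1 hne
      exact hT.2.1.1 (hB.H.ad _ _ _ hb').1
    · by_contra hne
      obtain ⟨b', hb'⟩ := Option.ne_none_iff_exists'.1 hne
      exact hT.2.2.1 (hB.H.ad _ _ _ hb').1
  -- nobody in the pieces lost `b`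
  have key : ∀ x : V, InT X Ty.B x → KX4 C πk <
      need (Fp (xt G X) X (tn G d X t m m2 pr f) (X.P.pc x)) (sdn X.P (X.P.pc x)) (X.P.sd x) b →
      ∀ β, (LVs G X t (tn G d X t m m2 pr f) (X.P.pc x) β b).card = 0 := by
    intro x hx hn β
    by_contra hne
    have hne' : (LVs G X t (tn G d X t m m2 pr f) (X.P.pc x) β b).Nonempty :=
      card_pos.1 (Nat.pos_of_ne_zero hne)
    obtain ⟨w0, γ, hc, hw0⟩ := hB.lw _ _ _ hne'
    obtain ⟨n', β', hc', _, _, _, _, hsg, _⟩ := hP.mem w0 ⟨_, _, hc⟩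
    obtain ⟨hn', _⟩ := Pool.Agent.Work.MP_db9399_rg_helper42.g6c hD hd (hζ _) (hζ _) hc hc'
    rw [← hn', hw0, sg_eq] at hsg
    have g1 := fun β' => hB.gw (X.P.pc x) γ w0 β' hc
    rw [hw0] at g1
    have g2 := fun β' => hB.gx (X.P.pc x) β' b
    have g3 := fun β' => un_bal G X t (tn G d X t m m2 pr f) (X.P.pc x) β' b
    have g4 := fun β' => hB.lx (X.P.pc x) β' b
    have g5 : ∀ β', un G X (tn G d X t m m2 pr f) (X.P.pc x) β' b ≤ un G X t (X.P.pc x) β' b ∧
        un G X t (X.P.pc x) β' b ≤ un G X (tn G d X t m m2 pr f) (X.P.pc x) β' b + 1 := by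
      intro β'
      have a1 := g1 β'
      have a2 := g2 β'
      have a3 := g3 β'
      have a4 := g4 β'
      omega
    rw [need_eq] at hn
    have a1 := g5 false
    have a2 := g5 true
    have b1 : (KX4 C πk : ℝ) < ((un G X (tn G d X t m m2 pr f) (X.P.pc x) (!X.P.sd x) b -
      un G X (tn G d X t m m2 pr f) (X.P.pc x) (X.P.sd x) b : ℕ) : ℝ) := by exact_mod_cast hn
    have b2 : ((un G X (tn G d X t m m2 pr f) (X.P.pc x) (!X.P.sd x) b -
        un G X (tn G d X t m m2 pr f) (X.P.pc x) (X.P.sd x) b : ℕ) : ℝ) ≤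
        |(((un G X t (X.P.pc x) false b : ℤ) - un G X t (X.P.pc x) true b : ℤ) : ℝ)| + 1 := by
      have c1 : ((un G X (tn G d X t m m2 pr f) (X.P.pc x) (!X.P.sd x) b -
          un G X (tn G d X t m m2 pr f) (X.P.pc x) (X.P.sd x) b : ℕ) : ℤ) ≤
          |((un G X t (X.P.pc x) false b : ℤ) - un G X t (X.P.pc x) true b)| + 1 := by
        cases X.P.sd x
        · simp only [Bool.not_false]
          rcases abs_cases ((un G X t (X.P.pc x) false b : ℤ) - un G X t (X.P.pc x) true b) with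
            ⟨h, _⟩ | ⟨h, _⟩ <;> omega
        · simp only [Bool.not_true]
          rcases abs_cases ((un G X t (X.P.pc x) false b : ℤ) - un G X t (X.P.pc x) true b) with
            ⟨h, _⟩ | ⟨h, _⟩ <;> omega
      exact_mod_cast c1
    linarith
  have kv := key v hT.2.1 h1
  have kw := key w hT.2.2 h2
  -- the needs of `b`
  have keq : ∀ x : V, (∀ β, (LVs G X t (tn G d X t m m2 pr f) (X.P.pc x) β b).card = 0) →
      no G X t (dlt G d X m m2 pr) (X.P.pc x) (X.P.sd x) b =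
        need (Fp (xt G X) X (tn G d X t m m2 pr f) (X.P.pc x)) (sdn X.P (X.P.pc x))
          (X.P.sd x) b := by
    intro x hx
    unfold no
    rw [need_eq, ub_eq, ub_eq]
    have a1 := un_bal G X t (tn G d X t m m2 pr f) (X.P.pc x) (X.P.sd x) b
    have a2 := un_bal G X t (tn G d X t m m2 pr f) (X.P.pc x) (!X.P.sd x) b
    have a3 := hB.gx (X.P.pc x) (X.P.sd x) b
    have a4 := hB.gx (X.P.pc x) (!X.P.sd x) b
    have a5 := hx (X.P.sd x)
    have a6 := hx (!X.P.sd x)
    omega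
  have kfree : ∀ x : V, InT X Ty.B x → b ∉ Ft (xt G X) (tn G d X t m m2 pr f) x →
      (∀ β, (LVs G X t (tn G d X t m m2 pr f) (X.P.pc x) β b).card = 0) →
      b ∉ Ft (xt G X) t x := by
    intro x hx hf hl hc
    have hmem : x ∈ LVs G X t (tn G d X t m m2 pr f) (X.P.pc x) (X.P.sd x) b := by
      unfold LVs
      rw [mem_filter, Pool.Agent.Work.MP_db9399_iv_helper38.mem_sV]
      exact ⟨⟨hx.1, rfl, rfl⟩, hc, hf⟩
    exact (card_pos.2 ⟨x, hmem⟩).ne' (hl _)
  -- the needs of the colour of the edge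
  have kno : ∀ (x : V) (b' : ℕ), no G X t (dlt G d X m m2 pr) (X.P.pc x) (X.P.sd x) b' ≤
        need (Fp (xt G X) X (tn G d X t m m2 pr f) (X.P.pc x)) (sdn X.P (X.P.pc x))
          (X.P.sd x) b' + 1 := by
    intro x b'
    unfold no
    rw [need_eq, ub_eq, ub_eq]
    have a1 := un_bal G X t (tn G d X t m m2 pr f) (X.P.pc x) (X.P.sd x) b'
    have a2 := un_bal G X t (tn G d X t m m2 pr f) (X.P.pc x) (!X.P.sd x) b'
    have a3 := hB.gx (X.P.pc x) (X.P.sd x) b'
    have a4 := hB.gx (X.P.pc x) (!X.P.sd x) b'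
    have a5 := hB.lx (X.P.pc x) (X.P.sd x) b'
    have a6 := hB.lx (X.P.pc x) (!X.P.sd x) b'
    omega
  have hK60 : 60 ≤ KX4 C πk := by
    unfold KX4
    omega
  have ev := keq v kv
  have ew := keq w kw
  have ht := hX.pre.tameR v w b hT hb (kfree v hT.2.1 hv kv) (kfree w hT.2.2 hw kw)
    (by rw [ev]; exact h1) (by rw [ew]; exact h2)
  rw [ev, ew] at ht
  rw [e1]
  have nv := kno v (t v w)
  have nw := kno w (t v w)
  rcases ht with ht | ht
  · left; omega
  · right; omega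

end Pool.Agent.Work.MP_db9399_rg_helper98
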